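import Pool.Agent.MP_c69980_ag.H43.Spec7
import Pool.Agent.MP_c69980_ag.S71.Cv2

/-!
The function `γ` for a curve in `U`.
-/

set_option autoImplicit false

namespace Pool.Agent.MP_c69980_ag.H43

open MvPolynomial H60 Finset Filter Topology Metric Pool.Agent.MP_f3836a_nt.PK

lemma badF_biH {ι κ : Type} {F : MvPolynomial ι ℂ} {d : ℕ} (hF : F.IsHomogeneous d) :
    BiH (rename (Sum.inl : ι → ι ⊕ κ) F) d 0 := by
  classical
  intro m hm
  obtain ⟨m', rfl, h⟩ := coeff_rename_ne_zero _ _ _ hm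
  have h1 := hF h
  rw [Finsupp.weight_apply, Finsupp.sum_mapDomain_index_inj Sum.inl_injective]
  rw [Finsupp.weight_apply] at h1
  refine Prod.ext ?_ ?_
  · simpa [Finsupp.sum, Prod.fst_sum] using h1
  · simp [Finsupp.sum, Prod.snd_sum]

lemma badF_biX {ι κ : Type} {F : MvPolynomial ι ℂ} {d : ℕ} (hF : F.IsHomogeneous d) (c : κ) :
    BiH (rename (Sum.inl : ι → ι ⊕ κ) F * X (Sum.inr c)) d 1 := by
  have := IsWeightedHomogeneous.mul (badF_biH (κ := κ) hF)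
    (isWeightedHomogeneous_X ℂ (Sum.elim (fun _ : ι => ((1, 0) : ℕ × ℕ)) fun _ : κ => (0, 1))
      (Sum.inr c))
  simpa [BiH] using this

section
variable {M n : ℕ} {K L : Type} [Field K] [Algebra ℂ K] [Field L] [Algebra ℂ L]

/-- `z'` is a specialisation of `z`. -/
def BadOn (z : Fin n → K) (z' : Fin n → L) : Prop :=
  ∀ (G : PR n) (d : ℕ), G.IsHomogeneous d → aeval z G = 0 → aeval z' G = 0

variable {z : Fin n → K} {z' : Fin n → L}

/-- The graph of the pull-back of functions. -/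
def badS (h : BadOn z z') : Subalgebra ℂ (K × L) where
  carrier := {p | ∃ (F G : PR n) (d : ℕ), F.IsHomogeneous d ∧ G.IsHomogeneous d ∧
    aeval z' G ≠ 0 ∧ p = (aeval z F / aeval z G, aeval z' F / aeval z' G)}
  mul_mem' := by
    rintro _ _ ⟨F, G, d, hF, hG, hx, rfl⟩ ⟨F', G', d', hF', hG', hx', rfl⟩
    exact ⟨_, _, _, hF.mul hF', hG.mul hG', by simp [hx, hx'], by simp [div_mul_div_comm]⟩
  add_mem' := by
    rintro _ _ ⟨F, G, d, hF, hG, hx, rfl⟩ ⟨F', G', d', hF', hG', hx', rfl⟩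
    refine ⟨_, _, _, (hF.mul hG').add (hG.mul hF'), hG.mul hG', by simp [hx, hx'], ?_⟩
    rw [Prod.mk_add_mk, div_add_div _ _ hx hx',
      div_add_div _ _ (fun q => hx (h _ _ hG q)) fun q => hx' (h _ _ hG' q)]
    simp
  algebraMap_mem' c :=
    ⟨C c, 1, 0, isHomogeneous_C _ _, isHomogeneous_one _ _, by simp, by ext <;> simp⟩

variable (h : BadOn z z') {g g₁ : K} {g' g₁' : L}

lemma badS_zero (hg : (0, g') ∈ badS h) : g' = 0 := by
  obtain ⟨F, G, d, hF, hG, hx, e⟩ := hg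
  rw [Prod.mk.injEq] at e
  rw [e.2, h F d hF ((div_eq_zero_iff.1 e.1.symm).resolve_right fun q => hx (h _ _ hG q)),
    zero_div]

lemma badS_eq (h1 : (g, g') ∈ badS h) (h2 : (g, g₁') ∈ badS h) : g' = g₁' :=
  sub_eq_zero.1 (badS_zero h (by simpa using sub_mem h1 h2))

lemma badS_div (h1 : (g, g') ∈ badS h) (h2 : (g₁, g₁') ∈ badS h) (h0 : g₁' ≠ 0) :
    (g / g₁, g' / g₁') ∈ badS h := by
  obtain ⟨F, G, d, hF, hG, hx, e⟩ := h2
  rw [Prod.mk.injEq] at e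
  have h3 : (g₁⁻¹, g₁'⁻¹) ∈ badS h := ⟨G, F, d, hG, hF, fun q => h0 (by rw [e.2, q, zero_div]),
    by rw [e.1, e.2, inv_div, inv_div]⟩
  simpa [div_eq_mul_inv] using mul_mem h1 h3

lemma badS_aeval {ι : Type} {v : ι → K} {v' : ι → L} (hv : ∀ i, (v i, v' i) ∈ badS h)
    (P : MvPolynomial ι ℂ) : (aeval v P, aeval v' P) ∈ badS h := by
  induction P using MvPolynomial.induction_on with
  | C c => simpa using (badS h).algebraMap_mem c
  | add p q hp hq => simpa using add_mem hp hq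
  | mul_X p i hp => simpa using mul_mem hp (hv i)

/-- The value at a place. -/
lemma badF_val (hL : FFd L) (P : Pl L) {k : L} (hk : ∀ i, k * z' i ∈ P.V)
    (on : On z fun i => P.val (k * z' i)) (hr : Reg z (fun i => P.val (k * z' i)) g) :
    ∃ g', (g, g') ∈ badS h ∧ g' ∈ P.V ∧ vl z g (fun i => P.val (k * z' i)) = P.val g' := by
  obtain ⟨F, G, d, hF, hG, hx, rfl⟩ := hr
  have a1 := cv2_aeval hL P hk F
  have a2 := cv2_aeval hL P hk G
  have a3 := cv2_inv hL P a2.1 (by rwa [a2.2])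
  have a4 := a3.1
  rw [aeval_scale hG, mul_ne_zero_iff] at a4
  have e : aeval z' F / aeval z' G =
      aeval (fun i => k * z' i) F * (aeval (fun i => k * z' i) G)⁻¹ := by
    rw [aeval_scale hF, aeval_scale hG, ← div_eq_mul_inv, mul_div_mul_left _ _ a4.1]
  have m := e ▸ mul_mem a1.1 a3.2
  refine ⟨_, ⟨F, G, d, hF, hG, a4.2, rfl⟩, m, ?_⟩
  rw [vl_eq on hF hG hx, div_eq_iff hx, ← a1.2, ← a2.2]
  obtain ⟨χ, h1, -⟩ := hL.a.hom P
  rw [← h1 ⟨_, m⟩, ← h1 ⟨_, a2.1⟩, ← χ.map_mul, h1, MulMemClass.coe_mul]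
  simp only [e]
  rw [inv_mul_cancel_right₀ a3.1]

lemma badF_val' (hL : FFd L) (P : Pl L) {k : L} (hk : ∀ i, k * z' i ∈ P.V)
    (on : On z fun i => P.val (k * z' i)) (hr : Reg z (fun i => P.val (k * z' i)) g)
    (hg : (g, g') ∈ badS h) : g' ∈ P.V ∧ vl z g (fun i => P.val (k * z' i)) = P.val g' := by
  obtain ⟨g'', h1, h2⟩ := badF_val h hL P hk on hr
  rwa [badS_eq h hg h1]

omit h in
lemma badF_zero (hL : FFd L) (P : Pl L) {x : L} (hx : x ∈ P.V) : P.Zero x ↔ P.val x = 0 := by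
  simpa using hL.a.val P x hx 0

omit h in
lemma badF_red (hL : FFd L) {P : Pl L} {x : PS n} (hr : Red P z' x) {k : L}
    (hk : ∀ i, k * z' i ∈ P.V) (h0 : (fun i => P.val (k * z' i)) ≠ 0) :
    Projectivization.mk ℂ _ h0 = x := by
  obtain ⟨k', k1, k2, rfl⟩ := hr
  obtain ⟨i, hi⟩ := Function.ne_iff.1 k2
  have a := cv2_inv hL P (k1 i) hi
  have m := mul_mem (hk i) a.2
  rw [Projectivization.mk_eq_mk_iff']
  refine ⟨P.val (k * z' i * (k' * z' i)⁻¹), funext fun j => ?_⟩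
  obtain ⟨χ, h1, -⟩ := hL.a.hom P
  have a1 := a.1
  rw [mul_ne_zero_iff] at a1
  rw [Pi.smul_apply, smul_eq_mul, ← h1 ⟨_, m⟩, ← h1 ⟨_, k1 j⟩, ← χ.map_mul, h1,
    MulMemClass.coe_mul]
  congr 1
  have := a1.1
  have := a1.2
  field_simp

omit h in
lemma badF_int (V : ValuationSubring L) {x : L} {a : ℕ → L} {d : ℕ} (ha : ∀ i, a i ∈ V)
    (hx : x ^ d + ∑ i ∈ range d, a i * x ^ i = 0) : x ∈ V := by
  by_contra hn
  rw [← V.valuation_le_one_iff, not_le] at hn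
  have h0 : V.valuation x ^ d ≠ 0 := pow_ne_zero _ (zero_lt_one.trans hn).ne'
  have := V.valuation.map_sum_lt (s := range d) (f := fun i => a i * x ^ i) h0 fun i hi => by
    rw [map_mul, map_pow]
    exact (mul_le_of_le_one_left' ((V.valuation_le_one_iff _).2 (ha i))).trans_lt
      (pow_lt_pow_right₀ hn (mem_range.1 hi))
  rw [← neg_eq_iff_add_eq_zero.2 hx, Valuation.map_neg, map_pow] at this
  exact lt_irrefl _ this

omit h in
lemma badF_avoid {α : ℂ → Pl L} {ε : ℝ} (hε : 0 < ε) (inj : Set.InjOn α (ball 0 ε))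
    {T : Set (Pl L)} (hT : T.Finite) : ∀ᶠ s in 𝓝[≠] (0 : ℂ), α s ∉ T := by
  have h1 : (ball (0 : ℂ) ε ∩ α ⁻¹' T).Finite :=
    Set.Finite.of_finite_image (f := α) (hT.subset fun _ ⟨_, a, b⟩ => b ▸ a.2)
      (inj.mono Set.inter_subset_left)
  have h2 := (h1.sdiff (t := {0})).isClosed.isOpen_compl.mem_nhds (x := (0 : ℂ)) (by simp)
  filter_upwards [mem_nhdsWithin_of_mem_nhds h2, mem_nhdsWithin_of_mem_nhds (ball_mem_nhds 0 hε),
    self_mem_nhdsWithin] with s a b c d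
  exact a ⟨⟨b, d⟩, c⟩

/-- A disc in `U` through the value at `P`. -/
lemma badF_disc (h1 : SArcP) {U : Set (PS n)} (hz : GenPt U z) (hL : FFd L) {T : Set (Pl L)}
    (hT : T.Finite) (hU : ∀ P ∉ T, ∃ x ∈ U, Red P z' x) {P : Pl L} (hP : P ∉ T) {k : L}
    (hk : ∀ i, k * z' i ∈ P.V) (h0 : (fun i => P.val (k * z' i)) ≠ 0) {Q : PR n} {e : ℕ}
    (hQ : Q.IsHomogeneous e) (hq : aeval z' Q ≠ 0) :
    ∃ R x ζ, Dk U 0 R x ∧ ζ ∈ ball (0 : ℂ) R ∧ eval (x 0) Q ≠ 0 ∧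
      (x ζ = fun i => P.val (k * z' i)) ∧
      ∀ g g', (g, g') ∈ badS h → g' ≠ 0 → od z x ζ g = (P.ord g' : ℤ) := by
  obtain ⟨α, ε, hε, rfl, arc, inj, ord⟩ := h1 L hL P
  have m0 : (0 : ℂ) ∈ ball (0 : ℂ) ε := mem_ball_self hε
  obtain ⟨i₀, hi₀⟩ := Function.ne_iff.1 h0
  have k0 : k ≠ 0 := left_ne_zero_of_mul (cv2_inv hL _ (hk i₀) hi₀).1
  have e1 : ∀ᶠ s in 𝓝 (0 : ℂ), α s ∉ T := by
    rw [← nhdsNE_sup_pure, eventually_sup]
    exact ⟨badF_avoid hε inj hT, hP⟩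
  have e2 : ∀ᶠ s in 𝓝 (0 : ℂ), s ∈ ball (0 : ℂ) ε ∧ (∀ i, k * z' i ∈ (α s).V) ∧
      (fun i => (α s).val (k * z' i)) ∈ Cone U := by
    filter_upwards [e1, ball_mem_nhds 0 hε, eventually_all.2 fun i => (arc 0 m0 _ (hk i)).1,
      (arc 0 m0 _ (hk i₀)).2.continuousAt.eventually_ne hi₀] with s a b c d
    obtain ⟨x, hx, r⟩ := hU _ a
    have n0 : (fun i => (α s).val (k * z' i)) ≠ 0 := Function.ne_iff.2 ⟨i₀, d⟩
    exact ⟨b, c, n0, (badF_red hL r c n0).symm ▸ hx⟩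
  have e3 : ∀ (G : PR n) (d : ℕ), G.IsHomogeneous d → aeval z' G ≠ 0 →
      ∀ᶠ s in 𝓝[≠] (0 : ℂ), eval (fun i => (α s).val (k * z' i)) G ≠ 0 := fun G d hG g0 => by
    have n0 : aeval (fun i => k * z' i) G ≠ 0 := by
      rw [aeval_scale hG]
      exact mul_ne_zero (pow_ne_zero _ k0) g0
    filter_upwards [mem_nhdsWithin_of_mem_nhds e2,
      badF_avoid hε inj (hL.b.fin (aeval (fun i => k * z' i) G))] with s a b c
    have a1 := cv2_aeval hL (α s) a.2.1 G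
    rw [← a1.2, ← badF_zero hL _ a1.1] at c
    rcases c with c | c
    · exact n0 c
    · exact b c.ne'
  obtain ⟨δ, hδ, e4⟩ := Metric.eventually_nhds_iff_ball.1 e2
  obtain ⟨s₀, b1, b2⟩ := ((e3 Q e hQ hq).and
    (mem_nhdsWithin_of_mem_nhds (ball_mem_nhds 0 (half_pos hδ)))).exists
  have in1 : ∀ s ∈ ball (0 : ℂ) (δ / 2), s + s₀ ∈ ball (0 : ℂ) δ := fun s hs => by
    have b3 : s₀ ∈ ball (0 : ℂ) (δ / 2) := b2
    rw [mem_ball_zero_iff] at hs b3 ⊢
    linarith [norm_add_le s s₀]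
  refine ⟨δ / 2, fun s i => (α (s + s₀)).val (k * z' i), -s₀, ⟨fun s hs => ?_,
    fun s hs => (e4 _ (in1 s hs)).2.2⟩, by simpa using b2, by simpa using b1, by simp,
    fun g g' hg g0 => ?_⟩
  · refine (differentiableAt_pi.2 fun i => ?_).differentiableWithinAt
    have a := e4 _ (in1 s hs)
    exact (arc _ a.1 _ (a.2.1 i)).2.differentiableAt.comp s (f := fun s => s + s₀)
      (differentiableAt_id.add_const s₀)
  · have := meromorphicOrderAt_comp_add_const_eq_meromorphicOrderAt (𝕜 := ℂ) (x := -s₀) (c := s₀)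
      (f := fun s => vl z g fun i => (α s).val (k * z' i))
    rw [neg_add_cancel] at this
    refine this.trans ((meromorphicOrderAt_congr ?_).trans (ord g' g0))
    obtain ⟨F, G, d, hF, hG, hx, e⟩ := id hg
    filter_upwards [mem_nhdsWithin_of_mem_nhds e2, e3 G d hG hx] with s a b
    exact (badF_val' h hL _ a.2.1 (Cone.on hz a.2.2)
      ⟨F, G, d, hF, hG, b, congrArg Prod.fst e⟩ hg).2

variable {u : Fin M → K} {y : Fin M → L}

lemma badF_rat (rel : Rel z u z' y) {c b : Fin M} (hb : u b ≠ 0) {g' : L}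
    (hg : (u c / u b, g') ∈ badS h) : y c = g' * y b := by
  obtain ⟨F, G, d, hF, hG, hx, e⟩ := hg
  rw [Prod.mk.injEq, div_eq_div_iff hb fun q => hx (h _ _ hG q)] at e
  have := rel _ d 1 (IsWeightedHomogeneous.sub (badF_biX hG c) (badF_biX hF b)) (by
    simp only [map_sub, map_mul, aeval_rename, aeval_X, Sum.elim_inr, Sum.elim_comp_inl]
    linear_combination e.1)
  simp only [map_sub, map_mul, aeval_rename, aeval_X, Sum.elim_inr, Sum.elim_comp_inl] at this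
  rw [e.2]
  field_simp
  linear_combination this

end

theorem sBadF (h1 : SArcP) (h2 : SRelK) (h3 : SHtBd) : SBadF := by
  intro t a M n w Θ PP K _ _ U z u κ J γ E γ₀ b₀ Q₀ mp kl
  have hz := mp.gen
  have rk := h2 _ _ _ _ w Θ K U z u mp
  obtain ⟨A, B, d, hA, hB, B0, eg⟩ := quot hz γ₀
  have A0 : aeval z A ≠ 0 := fun q => kl.g0 (by rw [eg, q, zero_div])
  obtain ⟨⟨e₀, hQ₀⟩, Q0⟩ := kl.Q0
  obtain ⟨R₁, e₁, hR₁, r1, f1⟩ := rk.form (X b₀) 1 (isHomogeneous_X _ _) (by simpa using kl.b0)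
  obtain ⟨R₂, e₂, hR₂, r2, f2⟩ := rk.form κ.Q κ.e kl.ke.hQ kl.ke.Qn
  refine ⟨Q₀ * A * B * R₁ * R₂, _, (((hQ₀.mul hA).mul hB).mul hR₁).mul hR₂,
    by simp [A0, B0, Q0, r1, r2], ?_⟩
  intro r C L _ _ v pl f z' y cv hf red rel reg hR
  obtain ⟨c₀, -⟩ := ((h3 r n C L v pl f z' cv red).2.2 _ _
    ((((hQ₀.mul hA).mul hB).mul hR₁).mul hR₂)).1 hR
  simp only [map_mul, mul_ne_zero_iff] at hR
  obtain ⟨⟨⟨⟨n1, n2⟩, n3⟩, n4⟩, n5⟩ := hR
  have hL := cv.ff
  have on : BadOn z z' := fun G e hG q => by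
    have := rel _ e 0 (badF_biH hG) (by rw [aeval_rename]; exact q)
    rwa [aeval_rename] at this
  have y0 : y ≠ 0 := by
    obtain ⟨β, hβ, -⟩ := reg c₀
    exact Function.ne_iff.2 ⟨_, (hβ none).2⟩
  have yb : y b₀ ≠ 0 := by simpa using f1 L z' y rel y0 n4
  have yQ : aeval y κ.Q ≠ 0 := f2 L z' y rel y0 n5
  have loc : ∀ c : C, ∃ (k : L) (b : Fin M), (∀ i, k * z' i ∈ (pl c).V) ∧
      (fun i => (pl c).val (k * z' i)) ≠ 0 ∧ (fun i => (pl c).val (k * z' i)) ∈ Cone U ∧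
      u b ≠ 0 ∧ y b ≠ 0 ∧ ∀ i, Reg z (fun i => (pl c).val (k * z' i)) (u i / u b) ∧
        (u i / u b, y i / y b) ∈ badS on := fun c => by
    obtain ⟨k, k1, k2, k3⟩ := red c
    have hU : f c ∈ U := hf ⟨c, rfl⟩
    obtain ⟨b, -, b1, b2⟩ := mp.hr _ hU none
    have cone : (fun i => (pl c).val (k * z' i)) ∈ Cone U := ⟨k2, k3 ▸ hU⟩
    have rg : ∀ i, Reg z (fun i => (pl c).val (k * z' i)) (u i / u b) := fun i => by
      obtain ⟨F, G, d, hF, hG, a1, a2⟩ :=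
        (mem_locRing (fun G d hG q => (hz.1 G d hG).1 q _ hU) _).1 (b2 i)
      rw [k3] at a1
      exact ⟨F, G, d, hF, hG, (eval_mk hG k2).not.1 a1, a2⟩
    choose g' g1 g2 using fun i => badF_val on hL (pl c) k1 (Cone.on hz cone) (rg i)
    have e := fun i => badF_rat on rel b1 (g1 i)
    have yb' : y b ≠ 0 := fun q => y0 (funext fun i => by rw [e i, q, mul_zero]; rfl)
    exact ⟨k, b, k1, k2, cone, b1, yb', fun i => ⟨rg i, by
      rw [e i, mul_div_cancel_right₀ _ yb']; exact g1 i⟩⟩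
  have rat : ∀ i j, y j ≠ 0 → u j ≠ 0 ∧ (u i / u j, y i / y j) ∈ badS on := fun i j hj => by
    obtain ⟨k, b, -, -, -, b1, b2, b3⟩ := loc c₀
    have := badS_div on (b3 i).2 (b3 j).2 (div_ne_zero hj b2)
    rw [div_div_div_cancel_right₀ b1, div_div_div_cancel_right₀ b2] at this
    refine ⟨fun q => div_ne_zero hj b2 (badS_zero on ?_), this⟩
    simpa [q] using (b3 j).2
  have frm : ∀ F : PR M, F.IsHomogeneous κ.e →
      (aeval u F / u b₀ ^ κ.e, aeval y F / y b₀ ^ κ.e) ∈ badS on := fun F hF => by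
    have := badS_aeval on (fun i => (rat i b₀ yb).2) F
    simp only [div_eq_inv_mul] at this ⊢
    rwa [aeval_scale hF, aeval_scale hF, inv_pow, inv_pow] at this
  have gam : ∀ c, (γ₀ * (u c / u b₀), aeval z' A / aeval z' B / y b₀ * y c) ∈ badS on := fun c => by
    have := mul_mem (show (γ₀, aeval z' A / aeval z' B) ∈ badS on from
      ⟨A, B, d, hA, hB, n3, by rw [eg]⟩) (rat c b₀ yb).2
    rw [div_mul_eq_mul_div _ (y b₀), mul_div_assoc]
    exact this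
  have eq : ∀ c, (aeval z' A / aeval z' B / y b₀ * y c) ^ κ.d + ∑ i ∈ range κ.d,
      aeval y (κ.Pc c i) / aeval y κ.Q * (aeval z' A / aeval z' B / y b₀ * y c) ^ i = 0 :=
    fun c => by
      have cf : ∀ i, (aeval u (κ.Pc c i) / aeval u κ.Q, aeval y (κ.Pc c i) / aeval y κ.Q) ∈
          badS on := fun i => by
        have := badS_div on (frm _ (kl.ke.hP c i)) (frm _ kl.ke.hQ)
          (div_ne_zero yQ (pow_ne_zero _ yb))
        rwa [div_div_div_cancel_right₀ (pow_ne_zero _ kl.b0),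
          div_div_div_cancel_right₀ (pow_ne_zero _ yb)] at this
      have := add_mem (pow_mem (gam c) κ.d)
        (sum_mem fun i (_ : i ∈ range κ.d) => mul_mem (cf i) (pow_mem (gam c) i))
      refine badS_zero on ?_
      convert this using 1
      refine Prod.ext ?_ ?_
      · simpa [Prod.fst_sum] using (kl.ke.eq c).symm
      · simp [Prod.snd_sum]
  refine ⟨aeval z' A / aeval z' B / y b₀, div_ne_zero (div_ne_zero n2 n3) yb, eq, fun P hP => ?_⟩
  obtain ⟨c₁, rfl⟩ := not_not.1 hP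
  obtain ⟨β, hβ, hV⟩ := reg c₁
  refine or_iff_not_imp_right.2 fun hb c => ?_
  have va := fun F : CP M t => (cv2_aeval hL _ hV F).1
  by_cases hq : (pl c₁).Zero (aeval (co β y) (dh κ.Q : CP M t))
  swap
  · refine badF_int _ (fun i => ?_) (eq c)
    have := mul_mem (va (dh (κ.Pc c i)))
      (cv2_inv hL _ (va _) ((badF_zero hL _ (va _)).not.1 hq)).2
    rwa [eval_dh (kl.ke.hP c i), eval_dh kl.ke.hQ, ← div_eq_mul_inv,
      div_div_div_cancel_right₀ (pow_ne_zero _ (hβ none).2)] at this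
  have hb' : ¬ ∀ f ∈ κ.Jb β, (pl c₁).Zero (aeval (co β y) f.2) ∨ aeval (co β y) f.1 = 0 ∨
      2 ≤ (pl c₁).ord (aeval (co β y) f.1) := fun q => hb ⟨β, hβ, hV, hq, q⟩
  simp only [not_forall, not_or, not_le] at hb'
  obtain ⟨φ, hφ, p1, p2, p3⟩ := hb'
  obtain ⟨k, b, k1, k2, cone, b1, b2, b3⟩ := loc c₁
  obtain ⟨R, x, ζ, dk, hζ, q0, ex, od'⟩ := badF_disc on h1 hz hL cv.cof
    (fun P hP => let ⟨c, e⟩ := not_not.1 hP; ⟨f c, hf ⟨c, rfl⟩, e ▸ red c⟩) hP k1 k2 hQ₀ n1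
  have hβu : Ch w β u := fun o => ⟨(hβ o).1, (rat b (β o) (hβ o).2).1⟩
  have o1 := Cone.on hz cone
  have rg : ∀ i, Reg z (fun i => (pl c₁).val (k * z' i)) (co β u i) := fun i => by
    obtain ⟨F, G, d, hF, hG, a1, a2⟩ := (b3 (β i.2)).1
    have v1 := badF_val' on hL _ k1 o1 (b3 (β i.2)).1 (b3 (β i.2)).2
    have a3 : eval (fun i => (pl c₁).val (k * z' i)) F ≠ 0 := fun q => by
      rw [a2, vl_eq o1 hF hG a1, q, zero_div] at v1
      have z1 := (badF_zero hL _ v1.1).2 v1.2.symm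
      rw [hL.a.zero, ValuationSubring.mem_nonunits_iff_or, inv_div] at z1
      exact z1.elim (div_ne_zero (hβ i.2).2 b2) fun q' => q' (hV (b, i.2))
    have r2 : Reg z (fun i => (pl c₁).val (k * z' i)) (u (β i.2) / u b)⁻¹ :=
      ⟨G, F, d, hG, hF, a3, by rw [a2, inv_div]⟩
    have := (vl_mul o1 (b3 i.1).1 r2).1
    rwa [← div_eq_mul_inv, div_div_div_cancel_right₀ b1] at this
  have pb : ∀ F : CP M t, (aeval (co β u) F, aeval (co β y) F) ∈ badS on :=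
    badS_aeval on fun i => (rat i.1 (β i.2) (hβ i.2).2).2
  have vv : ∀ F : CP M t, vl z (aeval (co β u) F) (x ζ) = (pl c₁).val (aeval (co β y) F) :=
    fun F => ex ▸ (badF_val' on hL _ k1 o1 (vl_aeval o1 rg F).1 (pb F)).2
  obtain ⟨c1, c2⟩ := (kl.kb β hβu).arc R x ζ dk hζ q0 (fun i => ex ▸ rg i)
    (by rw [vv, ← badF_zero hL _ (va _)]; exact hq) φ hφ
    (by rw [vv, Ne, ← badF_zero hL _ (va _)]; exact p1)
  rw [vv, ← badF_zero hL _ (va _)] at c1
  have c3 := c2 (by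
    rw [od' _ _ (pb _) p2, show (pl c₁).ord (aeval (co β y) φ.1) = 1 by
      have := c1.resolve_left p2; omega]
    rfl) c
  by_cases g0 : aeval z' A / aeval z' B / y b₀ * y c = 0
  · rw [g0]; exact zero_mem _
  · rw [od' _ _ (gam c) g0] at c3
    exact (hL.a.mem _ _ g0).2 (by exact_mod_cast c3)

end Pool.Agent.MP_c69980_ag.H43
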