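import Pool.Agent.MP_c69980_ag.H43.Spec10

/-!
A primitive element that is good at a given point.
-/

set_option autoImplicit false

namespace Pool.Agent.MP_c69980_ag.H43

open Polynomial Finset Filter

lemma prE_ext {A B : Type} [CommRing A] [CommRing B] [Algebra A B] [Algebra.IsIntegral A B]
    (θ : A →+* ℂ) (hi : Function.Injective (algebraMap A B)) :
    ∃ φ : B →+* ℂ, ∀ x, φ (algebraMap A B x) = θ x := by
  have : (RingHom.ker θ).IsPrime := RingHom.ker_isPrime θ
  obtain ⟨Q, -, hQ, hQP⟩ := Ideal.exists_ideal_over_prime_of_isIntegral (S := B)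
    (RingHom.ker θ) ⊥ (by
      rw [← RingHom.ker_eq_comap_bot, (RingHom.injective_iff_ker_eq_bot _).1 hi]; exact bot_le)
  have : Q.LiesOver (RingHom.ker θ) := ⟨hQP.symm⟩
  let : Algebra (A ⧸ RingHom.ker θ) ℂ := (RingHom.kerLift θ).toAlgebra
  have : FaithfulSMul (A ⧸ RingHom.ker θ) ℂ :=
    (faithfulSMul_iff_algebraMap_injective _ _).2 (RingHom.kerLift_injective θ)
  have : Module.IsTorsionFree (A ⧸ RingHom.ker θ) (B ⧸ Q) :=
    Module.isTorsionFree_iff_faithfulSMul.2 inferInstance
  let f : (B ⧸ Q) →ₐ[A ⧸ RingHom.ker θ] ℂ := IsAlgClosed.lift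
  exact ⟨f.toRingHom.comp (Ideal.Quotient.mk Q), fun x =>
    (f.commutes (Ideal.Quotient.mk _ x)).trans (RingHom.kerLift_mk θ x)⟩

lemma prE_nat {n : ℕ} {ι : Type} [Finite ι] (c : ι → Fin n → ℂ) (hc : Function.Injective c) :
    ∃ N : ℕ, Function.Injective fun j => ∑ i : Fin n, (N : ℂ) ^ (i : ℕ) * c j i := by
  have h : ∀ j j', ∀ᶠ N : ℕ in cofinite, ∑ i : Fin n, (N : ℂ) ^ (i : ℕ) * c j i =
      ∑ i : Fin n, (N : ℂ) ^ (i : ℕ) * c j' i → j = j' := fun j j' => by
    by_cases e : j = j'
    · exact Eventually.of_forall fun _ _ => e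
    obtain ⟨i₀, hi⟩ := Function.ne_iff.1 (hc.ne e)
    have p0 : (∑ i : Fin n, monomial i (c j i - c j' i) : ℂ[X]) ≠ 0 := fun q => by
      have := congrArg (coeff · i₀) q
      simp only [finsetSum_coeff, coeff_monomial, Fin.val_inj, sum_ite_eq', mem_univ, if_true,
        coeff_zero] at this
      exact hi (sub_eq_zero.1 this)
    refine ((finite_setOfPred_isRoot p0).preimage (f := fun N : ℕ => (N : ℂ))
      Nat.cast_injective.injOn).subset fun N hN => ?_
    simp only [Set.mem_compl_iff, Set.mem_ofPred_eq, Classical.not_imp] at hN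
    simp only [Set.mem_preimage, Set.mem_ofPred_eq, IsRoot, eval_finsetSum, eval_monomial, sub_mul,
      sum_sub_distrib, mul_comm (c _ _), hN.1, sub_self]
  exact ((eventually_all.2 fun j => eventually_all.2 (h j)).mono fun N a j j' => a j j').exists

theorem sPrE : SPrE := by
  intro R E L _ _ _ _ _ _ _ _ _ _ _ _ ξ v b hv hb h0
  classical
  let Ω := AlgebraicClosure E
  have iE := IsFractionRing.injective R E
  have iΩ : Function.Injective (algebraMap R Ω) := by
    rw [IsScalarTower.algebraMap_eq R E Ω]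
    exact (algebraMap E Ω).injective.comp iE
  have iL : Function.Injective (algebraMap R L) := by
    rw [IsScalarTower.algebraMap_eq R E L]
    exact (algebraMap E L).injective.comp iE
  have : Module.IsTorsionFree R L := Module.isTorsionFree_iff_algebraMap_injective.2 iL
  obtain ⟨φ, hφ⟩ := prE_ext (B := integralClosure R Ω) ξ fun x y h => iΩ (congrArg Subtype.val h)
  let τ : ∀ x : L, IsIntegral R x → (L →ₐ[E] Ω) → integralClosure R Ω := fun x hx σ =>
    ⟨σ x, hx.map (σ.restrictScalars R)⟩
  have card : Fintype.card (L →ₐ[E] Ω) = Module.finrank E L := AlgHom.card E L Ω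
  have inj : Function.Injective fun σ i => φ (τ (v i) (hv i) σ) := by
    let e := (Fintype.equivFinOfCardEq card).symm
    let m : Matrix _ _ (integralClosure R Ω) := Matrix.of fun i j => τ (v i) (hv i) (e j)
    have h1 : m.det ^ 2 = algebraMap R _ b := Subtype.val_injective (by
      have := Algebra.discr_eq_det_embeddingsMatrixReindex_pow_two E Ω v e
      rw [← hb, ← IsScalarTower.algebraMap_apply] at this
      refine Eq.trans ?_ this.symm
      rw [SubmonoidClass.coe_pow]
      exact congrArg (· ^ 2) ((integralClosure R Ω).val.toRingHom.map_det m))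
    have h2 : (φ.mapMatrix m).det ≠ 0 := fun q => h0 (by
      rw [← hφ, ← h1, map_pow, φ.map_det, q, zero_pow two_ne_zero])
    intro σ σ' h
    obtain ⟨j, rfl⟩ := e.surjective σ
    obtain ⟨j', rfl⟩ := e.surjective σ'
    by_contra n
    exact h2 (Matrix.det_zero_of_column_eq (fun q => n (congrArg e q)) (congrFun h))
  obtain ⟨N, hN⟩ := prE_nat _ inj
  set θ : L := ∑ i : Fin (Module.finrank E L), (N : L) ^ (i : ℕ) * v i with hθ
  have iθ : IsIntegral R θ := IsIntegral.sum _ fun i _ => ((isIntegral_natCast N).pow _).mul (hv i)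
  have in2 : Function.Injective fun σ => φ (τ θ iθ σ) := by
    convert hN using 2 with σ
    have : τ θ iθ σ = ∑ i : Fin (Module.finrank E L), (N : integralClosure R Ω) ^ (i : ℕ) *
        τ (v i) (hv i) σ := Subtype.val_injective (by simp [τ, hθ])
    simp [this]
  have top := (Field.primitive_element_iff_algHom_eq_of_eval' E Ω (fun _ => IsAlgClosed.splits _)
    θ).2 fun σ σ' h => in2 (congrArg φ (Subtype.ext h))
  have iθE : IsIntegral E θ := IsIntegral.of_finite E θ
  let pb := PowerBasis.ofAdjoinEqTop iθE (by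
    rw [← IntermediateField.adjoin_simple_toSubalgebra_of_isAlgebraic iθE.isAlgebraic, top]; rfl)
  have deg : (minpoly R θ).natDegree = Fintype.card (L →ₐ[E] Ω) := by
    rw [card, ← (Field.primitive_element_iff_minpoly_natDegree_eq E θ).1 top,
      minpoly.isIntegrallyClosed_eq_field_fractions' E iθ, natDegree_map_eq_of_injective iE]
  obtain ⟨b', hb'⟩ := IsIntegrallyClosed.isIntegral_iff.1
    (Algebra.discr_isIntegral E (R := R) (b := pb.basis) fun i => by
      rw [pb.basis_eq_pow]; exact iθ.pow _)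
  refine ⟨θ, minpoly R θ, b', iθ, minpoly.monic iθ, minpoly.aeval R θ,
    fun Q hQ => minpoly.isIntegrallyClosed_dvd iθ hQ, ?_, ?_, fun x hx => ?_⟩
  · have d : ∏ σ, (X - C (φ (τ θ iθ σ))) ∣ (minpoly R θ).map ξ :=
      prod_dvd_of_coprime (fun σ _ σ' _ h => pairwise_coprime_X_sub_C in2 h) fun σ _ => by
        have a : aeval (τ θ iθ σ) (minpoly R θ) = 0 := Subtype.val_injective (by
          rw [← Subalgebra.coe_val, ← aeval_algHom_apply]
          exact (aeval_algHom_apply (σ.restrictScalars R) θ _).trans (by simp))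
        rw [dvd_iff_isRoot, IsRoot, eval_map, ← RingHom.ext (f := φ.comp (algebraMap R _)) hφ,
          ← hom_eval₂, ← aeval_def, a, map_zero]
    rw [eq_of_monic_of_dvd_of_natDegree_le (monic_prod_X_sub_C _ _) ((minpoly.monic iθ).map ξ) d
      (by rw [natDegree_finsetProd_X_sub_C_eq_card, card_univ, ← deg]; exact natDegree_map_le)]
    exact separable_prod_X_sub_C_iff.2 in2
  · let e := (Fintype.equivFinOfCardEq (card.trans pb.finrank)).symm
    have h1 : algebraMap R _ b' = ∏ i, ∏ j ∈ Ioi i, (τ θ iθ (e j) - τ θ iθ (e i)) ^ 2 :=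
      Subtype.val_injective (by
        have := Algebra.discr_powerBasis_eq_prod E Ω pb e
        rw [← hb', ← IsScalarTower.algebraMap_apply] at this
        refine this.trans ?_
        simp [τ, pb])
    rw [← hφ, h1]
    simp only [map_prod, map_pow, map_sub]
    exact prod_ne_zero_iff.2 fun i _ => prod_ne_zero_iff.2 fun j hj => pow_ne_zero _
      (sub_ne_zero.2 fun q => (mem_Ioi.1 hj).ne' (e.injective (in2 q)))
  · have := Algebra.discr_mul_isIntegral_mem_adjoin E (B := pb) iθ hx
    rw [Algebra.adjoin_singleton_eq_range_aeval] at this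
    obtain ⟨Q, hQ⟩ := this
    exact ⟨Q, by
      rw [IsScalarTower.algebraMap_apply R E L, hb', ← Algebra.smul_def]; exact hQ.symm⟩

end Pool.Agent.MP_c69980_ag.H43
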